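import Pool.Agent.TH158.FM.Stm2
import Pool.Agent.TH158.FM.R1
import Pool.Agent.H631.KR.K05

/-!
# Terms with a stationary point (FM-GAM)
-/

set_option autoImplicit false

namespace Pool.Agent.TH329.FM

open Complex MeasureTheory Set Filter Topology Pool.Agent.TH158.FM

noncomputable section

lemma cp (w : ℂ) {u : ℝ} (hu : 0 < u) :
    HasDerivAt (fun v : ℝ => (v : ℂ) ^ w) (w * (u : ℂ) ^ (w - 1)) u := by
  have h := (hasDerivAt_id (u : ℂ)).cpow_const (c := w) (Or.inl (by simpa using hu))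
  simpa using h.comp_ofReal

lemma cp_cont (w : ℂ) : ContinuousOn (fun v : ℝ => (v : ℂ) ^ w) (Ioi 0) := fun _ hu =>
  (cp w hu).continuousAt.continuousWithinAt

lemma ex_der (r : ℂ) (u : ℝ) :
    HasDerivAt (fun v : ℝ => Complex.exp (-(r * (v : ℂ)))) (Complex.exp (-(r * (u : ℂ))) * (-r)) u := by
  have h : HasDerivAt (fun z : ℂ => Complex.exp (-(r * z))) (Complex.exp (-(r * (u : ℂ))) * (-r)) (u : ℂ) := by
    have h1 : HasDerivAt (fun z : ℂ => -(r * z)) (-(r * 1)) (u : ℂ) :=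
      ((hasDerivAt_id (u : ℂ)).const_mul r).neg
    rw [mul_one] at h1
    exact h1.cexp
  exact h.comp_ofReal

/-- norm of the exponential -/
lemma norm_ex {r : ℂ} (hr : 0 ≤ r.re) {u : ℝ} (hu : 0 ≤ u) : ‖Complex.exp (-(r * (u : ℂ)))‖ ≤ 1 := by
  rw [Complex.norm_exp, Complex.neg_re, Complex.re_mul_ofReal, Real.exp_le_one_iff]
  have := mul_nonneg hr hu
  linarith

lemma s_re (t : ℝ) : (pt (1 / 2) t).re = 1 / 2 := pt_re _ _
lemma s_im (t : ℝ) : (pt (1 / 2) t).im = t := pt_im _ _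

lemma norm_us (t : ℝ) {u : ℝ} (hu : 0 < u) : ‖(u : ℂ) ^ (-(pt (1 / 2) t))‖ = u ^ (-(1 / 2) : ℝ) := by
  rw [Complex.norm_cpow_eq_rpow_re_of_pos hu, Complex.neg_re, s_re]

lemma norm_us1 (t : ℝ) {u : ℝ} (hu : 0 < u) :
    ‖(u : ℂ) ^ (-(pt (1 / 2) t) - 1)‖ = u ^ (-(3 / 2) : ℝ) := by
  rw [Complex.norm_cpow_eq_rpow_re_of_pos hu, Complex.sub_re, Complex.neg_re, s_re, Complex.one_re]
  norm_num

/-- the tail integrand is integrable -/
lemma int_tail (t : ℝ) {c : ℝ} (hc : 0 < c) {r : ℂ} (hr : 0 ≤ r.re) :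
    IntegrableOn (fun u : ℝ => Complex.exp (-(r * (u : ℂ))) * (u : ℂ) ^ (-(pt (1 / 2) t) - 1))
      (Ioi c) := by
  have h0 : IntegrableOn (fun u : ℝ => u ^ (-(3 / 2) : ℝ)) (Ioi c) :=
    integrableOn_Ioi_rpow_of_lt (by norm_num) hc
  refine Integrable.mono' h0 ?_ ?_
  · apply ContinuousOn.aestronglyMeasurable _ measurableSet_Ioi
    refine ContinuousOn.mul (by fun_prop) ?_
    exact (cp_cont _).mono (Ioi_subset_Ioi hc.le)
  · refine (ae_restrict_iff' measurableSet_Ioi).2 (Eventually.of_forall fun u hu => ?_)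
    have hu' : 0 < u := lt_trans hc hu
    rw [norm_mul, norm_us1 t hu']
    have h1 := norm_ex hr hu'.le
    have h2 : 0 ≤ u ^ (-(3 / 2) : ℝ) := by positivity
    calc ‖Complex.exp (-(r * (u : ℂ)))‖ * u ^ (-(3 / 2) : ℝ) ≤ 1 * u ^ (-(3 / 2) : ℝ) :=
          mul_le_mul_of_nonneg_right h1 h2
      _ = _ := one_mul _

/-- the integrand near zero is integrable -/
lemma int_zero (t : ℝ) {c : ℝ} (hc : 0 < c) {r : ℂ} (hr : 0 ≤ r.re) :
    IntegrableOn (fun u : ℝ => Complex.exp (-(r * (u : ℂ))) * (u : ℂ) ^ (-(pt (1 / 2) t)))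
      (Ioc 0 c) := by
  have h0 : IntegrableOn (fun u : ℝ => u ^ (-(1 / 2) : ℝ)) (Ioc 0 c) := by
    have := intervalIntegral.intervalIntegrable_rpow' (a := 0) (b := c) (r := (-(1 / 2) : ℝ))
      (by norm_num)
    exact (intervalIntegrable_iff_integrableOn_Ioc_of_le hc.le).1 this
  refine Integrable.mono' h0 ?_ ?_
  · apply ContinuousOn.aestronglyMeasurable _ measurableSet_Ioc
    refine ContinuousOn.mul (by fun_prop) ?_
    exact (cp_cont _).mono (fun u hu => hu.1)
  · refine (ae_restrict_iff' measurableSet_Ioc).2 (Eventually.of_forall fun u hu => ?_)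
    have hu' : 0 < u := hu.1
    rw [norm_mul, norm_us t hu']
    have h1 := norm_ex hr hu'.le
    have h2 : 0 ≤ u ^ (-(1 / 2) : ℝ) := by positivity
    calc ‖Complex.exp (-(r * (u : ℂ)))‖ * u ^ (-(1 / 2) : ℝ) ≤ 1 * u ^ (-(1 / 2) : ℝ) :=
          mul_le_mul_of_nonneg_right h1 h2
      _ = _ := one_mul _

/-- the regularised identity -/
lemma reg (t : ℝ) {c : ℝ} (hc : 0 < c) {r : ℂ} (hr : 0 < r.re) :
    pt (1 / 2) t * ∫ u in Ioi c, Complex.exp (-(r * (u : ℂ))) * (u : ℂ) ^ (-(pt (1 / 2) t) - 1) =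
      Complex.exp (-(r * (c : ℂ))) * (c : ℂ) ^ (-(pt (1 / 2) t)) -
        r * ((1 / r) ^ (1 - pt (1 / 2) t) * Complex.Gamma (1 - pt (1 / 2) t) -
          ∫ u in Ioc 0 c, Complex.exp (-(r * (u : ℂ))) * (u : ℂ) ^ (-(pt (1 / 2) t))) := by
  set s := pt (1 / 2) t with hs
  have hsre : (1 - s).re = 1 / 2 := by rw [Complex.sub_re, Complex.one_re, hs, s_re]; norm_num
  -- the full Gamma integral
  have hG := KRS.lap_val (1 - s) (by rw [hsre]; norm_num) r hr
  have hGi := KRS.lap_int (1 - s) (by rw [hsre]; norm_num) r hr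
  have e1 : 1 - s - 1 = -s := by ring
  rw [e1] at hG hGi
  have hGi' : IntegrableOn (fun u : ℝ => Complex.exp (-(r * (u : ℂ))) * (u : ℂ) ^ (-s)) (Ioi 0) := by
    refine hGi.congr_fun (fun u _ => ?_) measurableSet_Ioi
    exact mul_comm _ _
  have hG' : ∫ u in Ioi (0 : ℝ), Complex.exp (-(r * (u : ℂ))) * (u : ℂ) ^ (-s) =
      (1 / r) ^ (1 - s) * Complex.Gamma (1 - s) := by
    rw [← hG]
    refine setIntegral_congr_fun measurableSet_Ioi fun u _ => ?_
    exact mul_comm _ _
  have hsplit : ∫ u in Ioi (0 : ℝ), Complex.exp (-(r * (u : ℂ))) * (u : ℂ) ^ (-s) =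
      (∫ u in Ioc 0 c, Complex.exp (-(r * (u : ℂ))) * (u : ℂ) ^ (-s)) +
        ∫ u in Ioi c, Complex.exp (-(r * (u : ℂ))) * (u : ℂ) ^ (-s) := by
    rw [← Ioc_union_Ioi_eq_Ioi hc.le]
    apply setIntegral_union
    · rw [Set.disjoint_left]
      intro u hu hu2
      exact absurd hu.2 (not_le.2 hu2)
    · exact measurableSet_Ioi
    · exact hGi'.mono_set (fun u hu => hu.1)
    · exact hGi'.mono_set (Ioi_subset_Ioi hc.le)
  -- integration by parts
  have htail : IntegrableOn (fun u : ℝ => Complex.exp (-(r * (u : ℂ))) * (u : ℂ) ^ (-s)) (Ioi c) :=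
    hGi'.mono_set (Ioi_subset_Ioi hc.le)
  have htail1 := int_tail t hc hr.le
  rw [← hs] at htail1
  have hder : ∀ u ∈ Ici c, HasDerivAt (fun u : ℝ => Complex.exp (-(r * (u : ℂ))) * (u : ℂ) ^ (-s))
      (-r * (Complex.exp (-(r * (u : ℂ))) * (u : ℂ) ^ (-s)) +
        -s * (Complex.exp (-(r * (u : ℂ))) * (u : ℂ) ^ (-s - 1))) u := by
    intro u hu
    have hu' : 0 < u := lt_of_lt_of_le hc hu
    have h := (ex_der r u).mul (cp (-s) hu')
    refine h.congr_deriv ?_
    ring
  have hint : IntegrableOn (fun u : ℝ => -r * (Complex.exp (-(r * (u : ℂ))) * (u : ℂ) ^ (-s)) +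
        -s * (Complex.exp (-(r * (u : ℂ))) * (u : ℂ) ^ (-s - 1))) (Ioi c) :=
    (htail.const_mul (-r)).add (htail1.const_mul (-s))
  have hlim : Tendsto (fun u : ℝ => Complex.exp (-(r * (u : ℂ))) * (u : ℂ) ^ (-s)) atTop (𝓝 0) := by
    apply squeeze_zero_norm' _ (tendsto_rpow_neg_atTop (y := 1 / 2) (by norm_num))
    filter_upwards [eventually_gt_atTop 0] with u hu
    rw [norm_mul, hs, norm_us t hu]
    have h1 := norm_ex hr.le hu.le
    have h2 : 0 ≤ u ^ (-(1 / 2) : ℝ) := by positivity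
    calc ‖Complex.exp (-(r * (u : ℂ)))‖ * u ^ (-(1 / 2) : ℝ) ≤ 1 * u ^ (-(1 / 2) : ℝ) :=
          mul_le_mul_of_nonneg_right h1 h2
      _ = _ := one_mul _
  have hI := integral_Ioi_of_hasDerivAt_of_tendsto' hder hint hlim
  rw [integral_add (htail.const_mul (-r)) (htail1.const_mul (-s)), integral_const_mul,
    integral_const_mul] at hI
  rw [← hG', hsplit]
  linear_combination -hI

/-- the bound of the part near zero -/
lemma near (t c : ℝ) (b : ℝ) (hc : 0 < c) (hb : 0 < b) (hbc : b * c < t) :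
    ‖∫ u in Ioc 0 c, Complex.exp (-(-(b : ℂ) * I * (u : ℂ))) * (u : ℂ) ^ (-(pt (1 / 2) t))‖ ≤
      2 * Real.sqrt c / (t - b * c) := by
  set s := pt (1 / 2) t with hs
  set f : ℝ → ℂ := fun u => Complex.exp (-(-(b : ℂ) * I * (u : ℂ))) * (u : ℂ) ^ (-s) with hf
  have ht0 : 0 < t := lt_trans (mul_pos hb hc) hbc
  have hr0 : (0 : ℝ) ≤ (-(b : ℂ) * I).re := by simp
  have hnf : ∀ u : ℝ, 0 < u → ‖f u‖ = 1 / Real.sqrt u := by
    intro u hu
    rw [hf]
    simp only
    rw [norm_mul, hs, norm_us t hu, Complex.norm_exp]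
    have e1 : (-(-(b : ℂ) * I * (u : ℂ))).re = 0 := by simp
    rw [e1, Real.exp_zero, one_mul, Real.rpow_neg hu.le, Real.sqrt_eq_rpow]
    exact (one_div _).symm
  have hfint : IntegrableOn f (Ioc 0 c) := int_zero t hc hr0
  have hd : ∀ u : ℝ, 0 ≤ u → u ≤ c → 0 < t - b * u := by
    intro u hu huc
    have : b * u ≤ b * c := mul_le_mul_of_nonneg_left huc hb.le
    linarith
  -- the bound on `[a, c]`
  have key : ∀ a : ℝ, 0 < a → a < c → ‖∫ u in a..c, f u‖ ≤ 2 * Real.sqrt c / (t - b * c) := by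
    intro a ha hac
    set D : ℝ → ℂ := fun u => I * ((b * u - t : ℝ) : ℂ) with hD
    have hD0 : ∀ u ∈ Icc a c, D u ≠ 0 := by
      intro u hu
      have h1 := hd u (ha.le.trans hu.1) hu.2
      rw [hD]
      simp only
      refine mul_ne_zero I_ne_zero ?_
      rw [Complex.ofReal_ne_zero]
      linarith
    set Φ : ℝ → ℂ := fun u => Complex.exp (-(-(b : ℂ) * I * (u : ℂ))) * (u : ℂ) ^ (1 - s) / D u with hΦ
    set g : ℝ → ℂ := fun u => -(f u) * I * ((b * u / 2 + t / 2 : ℝ) : ℂ) / D u ^ 2 with hg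
    set W : ℝ → ℝ := fun u => Real.sqrt u / (t - b * u) with hW
    set W' : ℝ → ℝ := fun u => 1 / Real.sqrt u * (b * u / 2 + t / 2) / (t - b * u) ^ 2 with hW'
    have hDder : ∀ u : ℝ, HasDerivAt D (I * (b : ℂ)) u := by
      intro u
      have h1 : HasDerivAt (fun u : ℝ => b * u - t) b u := by
        simpa using ((hasDerivAt_id u).const_mul b).sub_const t
      exact (h1.ofReal_comp).const_mul I
    have hΦder : ∀ u ∈ Icc a c, HasDerivAt Φ (f u + g u) u := by
      intro u hu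
      have hu' : 0 < u := lt_of_lt_of_le ha hu.1
      have hne : (u : ℂ) ≠ 0 := by exact_mod_cast hu'.ne'
      have h1 := ((ex_der (-(b : ℂ) * I) u).mul (cp (1 - s) hu')).div (hDder u) (hD0 u hu)
      refine h1.congr_deriv ?_
      have e1 : (u : ℂ) ^ (1 - s - 1) = (u : ℂ) ^ (-s) := by congr 1; ring
      have e2 : (u : ℂ) ^ (1 - s) = (u : ℂ) * (u : ℂ) ^ (-s) := by
        rw [sub_eq_add_neg, Complex.cpow_add _ _ hne, Complex.cpow_one]
      have e3 : s = 1 / 2 + (t : ℂ) * I := by rw [hs]; exact pt_half t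
      have e4 : D u = I * ((b : ℂ) * u - t) := by rw [hD]; push_cast; ring
      have hDu := hD0 u hu
      rw [hg, hf]
      simp only [Pi.mul_apply]
      rw [e1, e2]
      field_simp
      rw [e4, e3]
      push_cast
      ring
    have hcf : ContinuousOn f (Icc a c) := by
      rw [hf]
      refine ContinuousOn.mul (by fun_prop) ?_
      exact (cp_cont _).mono (fun u hu => lt_of_lt_of_le ha hu.1)
    have hcD : ContinuousOn D (Icc a c) := fun u _ => (hDder u).continuousAt.continuousWithinAt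
    have hcg : ContinuousOn g (Icc a c) := by
      rw [hg]
      refine ContinuousOn.div ?_ (hcD.pow 2) (fun u hu => pow_ne_zero 2 (hD0 u hu))
      refine ContinuousOn.mul (ContinuousOn.mul hcf.neg continuousOn_const) ?_
      fun_prop
    have hcW' : ContinuousOn W' (Icc a c) := by
      rw [hW']
      refine ContinuousOn.div ?_ (by fun_prop) (fun u hu => ?_)
      · refine ContinuousOn.mul (ContinuousOn.div continuousOn_const (by fun_prop) fun u hu => ?_)
          (by fun_prop)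
        exact (Real.sqrt_pos.2 (lt_of_lt_of_le ha hu.1)).ne'
      · have := hd u (ha.le.trans hu.1) hu.2
        positivity
    have hif : IntervalIntegrable f volume a c := hcf.intervalIntegrable_of_Icc hac.le
    have hig : IntervalIntegrable g volume a c := hcg.intervalIntegrable_of_Icc hac.le
    have hiW : IntervalIntegrable W' volume a c := hcW'.intervalIntegrable_of_Icc hac.le
    have hWder : ∀ u ∈ Icc a c, HasDerivAt W (W' u) u := by
      intro u hu
      have hu' : 0 < u := lt_of_lt_of_le ha hu.1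
      have h1 := hd u (ha.le.trans hu.1) hu.2
      have h2 : HasDerivAt (fun u : ℝ => t - b * u) (-b) u := by
        simpa using ((hasDerivAt_id u).const_mul b).const_sub t
      have h3 := (Real.hasDerivAt_sqrt hu'.ne').div h2 h1.ne'
      refine h3.congr_deriv ?_
      rw [hW']
      simp only
      have h4 : 0 < Real.sqrt u := Real.sqrt_pos.2 hu'
      have h5 : Real.sqrt u ^ 2 = u := Real.sq_sqrt hu'.le
      field_simp
      rw [h5]
      ring
    have hu1 : uIcc a c = Icc a c := uIcc_of_le hac.le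
    have hFTC : ∫ u in a..c, (f u + g u) = Φ c - Φ a :=
      intervalIntegral.integral_eq_sub_of_hasDerivAt (fun u hu => hΦder u (hu1 ▸ hu)) (hif.add hig)
    have hFTW : ∫ u in a..c, W' u = W c - W a :=
      intervalIntegral.integral_eq_sub_of_hasDerivAt (fun u hu => hWder u (hu1 ▸ hu)) hiW
    have hnD : ∀ u ∈ Icc a c, ‖D u‖ = t - b * u := by
      intro u hu
      have h1 := hd u (ha.le.trans hu.1) hu.2
      rw [hD]
      simp only
      rw [norm_mul, Complex.norm_I, one_mul, Complex.norm_real, Real.norm_eq_abs,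
        abs_of_neg (by linarith)]
      ring
    have hnΦ : ∀ u ∈ Icc a c, ‖Φ u‖ = W u := by
      intro u hu
      have hu' : 0 < u := lt_of_lt_of_le ha hu.1
      rw [hΦ, hW]
      simp only
      rw [norm_div, norm_mul, hnD u hu, Complex.norm_exp,
        Complex.norm_cpow_eq_rpow_re_of_pos hu', Complex.sub_re, Complex.one_re, hs, s_re]
      have e1 : (-(-(b : ℂ) * I * (u : ℂ))).re = 0 := by simp
      rw [e1, Real.exp_zero, one_mul, Real.sqrt_eq_rpow]
      norm_num
    have hng : ∀ u ∈ Icc a c, ‖g u‖ = W' u := by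
      intro u hu
      have hu' : 0 < u := lt_of_lt_of_le ha hu.1
      rw [hg, hW']
      simp only
      rw [norm_div, norm_mul, norm_mul, norm_neg, hnf u hu', Complex.norm_I, mul_one, norm_pow,
        hnD u hu, Complex.norm_real, Real.norm_eq_abs, abs_of_nonneg (by positivity)]
    have hgle : ‖∫ u in a..c, g u‖ ≤ W c - W a := by
      rw [← hFTW]
      apply intervalIntegral.norm_integral_le_of_norm_le hac.le _ hiW
      refine Eventually.of_forall fun u hu => ?_
      exact (hng u ⟨hu.1.le, hu.2⟩).le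
    have hfeq : ∫ u in a..c, f u = Φ c - Φ a - ∫ u in a..c, g u := by
      rw [intervalIntegral.integral_add hif hig] at hFTC
      rw [← hFTC]; ring
    rw [hfeq]
    calc ‖Φ c - Φ a - ∫ u in a..c, g u‖ ≤ ‖Φ c - Φ a‖ + ‖∫ u in a..c, g u‖ := norm_sub_le _ _
      _ ≤ (‖Φ c‖ + ‖Φ a‖) + (W c - W a) := add_le_add (norm_sub_le _ _) hgle
      _ = 2 * Real.sqrt c / (t - b * c) := by
        rw [hnΦ c ⟨hac.le, le_rfl⟩, hnΦ a ⟨le_rfl, hac.le⟩, hW]
        simp only
        ring
  -- let `a → 0`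
  have hfin : ∀ a : ℝ, 0 < a → a < c →
      ‖∫ u in Ioc 0 c, f u‖ ≤ 2 * Real.sqrt c / (t - b * c) + 2 * Real.sqrt a := by
    intro a ha hac
    have h1 : ∫ u in Ioc 0 c, f u = (∫ u in (0 : ℝ)..a, f u) + ∫ u in a..c, f u := by
      rw [intervalIntegral.integral_add_adjacent_intervals, intervalIntegral.integral_of_le hc.le]
      · exact (intervalIntegrable_iff_integrableOn_Ioc_of_le ha.le).2
          (hfint.mono_set (Ioc_subset_Ioc_right hac.le))
      · exact (intervalIntegrable_iff_integrableOn_Ioc_of_le hac.le).2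
          (hfint.mono_set (Ioc_subset_Ioc_left ha.le))
    have h2 : ‖∫ u in (0 : ℝ)..a, f u‖ ≤ 2 * Real.sqrt a := by
      have h3 : ∫ u in (0 : ℝ)..a, u ^ (-(1 / 2) : ℝ) = 2 * Real.sqrt a := by
        rw [integral_rpow (Or.inl (by norm_num))]
        rw [show (-(1 / 2) + 1 : ℝ) = 1 / 2 by norm_num, Real.zero_rpow (by norm_num),
          ← Real.sqrt_eq_rpow]
        ring
      rw [← h3]
      apply intervalIntegral.norm_integral_le_of_norm_le ha.le
      · refine Eventually.of_forall fun u hu => ?_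
        rw [hnf u hu.1, Real.rpow_neg hu.1.le, Real.sqrt_eq_rpow, one_div]
      · exact intervalIntegral.intervalIntegrable_rpow' (by norm_num)
    rw [h1]
    calc ‖(∫ u in (0 : ℝ)..a, f u) + ∫ u in a..c, f u‖
        ≤ ‖∫ u in (0 : ℝ)..a, f u‖ + ‖∫ u in a..c, f u‖ := norm_add_le _ _
      _ ≤ 2 * Real.sqrt a + 2 * Real.sqrt c / (t - b * c) := add_le_add h2 (key a ha hac)
      _ = _ := add_comm _ _
  have hlim : Tendsto (fun a : ℝ => 2 * Real.sqrt c / (t - b * c) + 2 * Real.sqrt a) (𝓝[>] 0)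
      (𝓝 (2 * Real.sqrt c / (t - b * c) + 2 * Real.sqrt 0)) := by
    apply Tendsto.mono_left _ nhdsWithin_le_nhds
    apply Continuous.tendsto
    fun_prop
  rw [Real.sqrt_zero, mul_zero, add_zero] at hlim
  refine ge_of_tendsto hlim ?_
  filter_upwards [Ioo_mem_nhdsGT hc] with a ha
  exact hfin a ha.1 ha.2

/-- the limit `ε → 0` -/
lemma lim_gen (S : Set ℝ) (hS : MeasurableSet S) (hS0 : ∀ u ∈ S, 0 < u) (w : ℂ) (p : ℝ)
    (hw : w.re = p) (hint : IntegrableOn (fun u : ℝ => u ^ p) S) (r0 : ℂ) (hr0 : r0.re = 0) :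
    Tendsto (fun ε : ℝ => ∫ u in S, Complex.exp (-(((ε : ℂ) + r0) * (u : ℂ))) * (u : ℂ) ^ w)
      (𝓝[>] 0) (𝓝 (∫ u in S, Complex.exp (-(r0 * (u : ℂ))) * (u : ℂ) ^ w)) := by
  apply tendsto_integral_filter_of_dominated_convergence (fun u : ℝ => u ^ p)
  · refine Eventually.of_forall fun ε => ?_
    apply ContinuousOn.aestronglyMeasurable _ hS
    refine ContinuousOn.mul (by fun_prop) ?_
    exact (cp_cont _).mono hS0
  · filter_upwards [self_mem_nhdsWithin] with ε hε
    refine (ae_restrict_iff' hS).2 (Eventually.of_forall fun u hu => ?_)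
    have hu' : 0 < u := hS0 u hu
    rw [norm_mul, Complex.norm_cpow_eq_rpow_re_of_pos hu', hw]
    have h1 := norm_ex (r := (ε : ℂ) + r0) (by
      rw [Complex.add_re, hr0, Complex.ofReal_re, add_zero]; exact le_of_lt hε) hu'.le
    have h2 : 0 ≤ u ^ p := Real.rpow_nonneg hu'.le _
    calc ‖Complex.exp (-(((ε : ℂ) + r0) * (u : ℂ)))‖ * u ^ p ≤ 1 * u ^ p :=
          mul_le_mul_of_nonneg_right h1 h2
      _ = _ := one_mul _
  · exact hint
  · refine (ae_restrict_iff' hS).2 (Eventually.of_forall fun u _ => ?_)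
    have hcont : Continuous fun ε : ℝ => Complex.exp (-(((ε : ℂ) + r0) * (u : ℂ))) * (u : ℂ) ^ w := by
      fun_prop
    have h := (hcont.tendsto 0).mono_left (nhdsWithin_le_nhds (s := Ioi 0))
    rw [Complex.ofReal_zero, zero_add] at h
    exact h

end

end Pool.Agent.TH329.FM

namespace Pool.Agent.TH158.FM

open Complex MeasureTheory Set Filter Topology Pool.Agent.TH329.FM

theorem gam_all : S_GAM := by
  intro t c m hc hm hmt
  have hm0 : (0 : ℝ) < m := by exact_mod_cast hm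
  set b : ℝ := 2 * Real.pi * m with hb
  have hb0 : 0 < b := by positivity
  set s := pt (1 / 2) t with hs
  set r0 : ℂ := -(b : ℂ) * I with hr0
  have hr0re : r0.re = 0 := by rw [hr0]; simp
  have hbC : (b : ℂ) ≠ 0 := by exact_mod_cast hb0.ne'
  have hr0ne : r0 ≠ 0 := by
    rw [hr0]; exact mul_ne_zero (neg_ne_zero.2 hbC) I_ne_zero
  set J : ℂ := ∫ u in Ioc 0 c, Complex.exp (-(r0 * (u : ℂ))) * (u : ℂ) ^ (-s) with hJ
  have hKK : KK m c t = ∫ u in Ioi c, Complex.exp (-(r0 * (u : ℂ))) * (u : ℂ) ^ (-s - 1) := by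
    unfold KK
    refine setIntegral_congr_fun measurableSet_Ioi fun u _ => ?_
    congr 2
    rw [hr0, hb]
    push_cast
    ring
  have hinv : 1 / r0 = ((1 / b : ℝ) : ℂ) * I := by
    rw [hr0]
    push_cast
    have hI : I * I = -1 := Complex.I_mul_I
    field_simp
    rw [Complex.I_sq]
  have hslit : 1 / r0 ∈ Complex.slitPlane := by
    rw [Complex.mem_slitPlane_iff]
    right
    rw [hinv]
    simp [hb0.ne']
  -- the identity in the limit
  have hid : s * KK m c t = Complex.exp (-(r0 * (c : ℂ))) * (c : ℂ) ^ (-s) -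
      r0 * ((1 / r0) ^ (1 - s) * Complex.Gamma (1 - s) - J) := by
    rw [hKK]
    have l1 := (lim_gen (Ioi c) measurableSet_Ioi (fun u hu => lt_trans hc hu) (-s - 1)
      (-(3 / 2)) (by rw [Complex.sub_re, Complex.neg_re, hs, s_re, Complex.one_re]; norm_num)
      (integrableOn_Ioi_rpow_of_lt (by norm_num) hc) r0 hr0re).const_mul s
    have l2 := lim_gen (Ioc 0 c) measurableSet_Ioc (fun u hu => hu.1) (-s)
      (-(1 / 2)) (by rw [Complex.neg_re, hs, s_re]) (by
        have := intervalIntegral.intervalIntegrable_rpow' (a := 0) (b := c) (r := (-(1 / 2) : ℝ))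
          (by norm_num)
        exact (intervalIntegrable_iff_integrableOn_Ioc_of_le hc.le).1 this) r0 hr0re
    have l3 : Tendsto (fun ε : ℝ => (ε : ℂ) + r0) (𝓝[>] 0) (𝓝 r0) := by
      have hcont : Continuous fun ε : ℝ => (ε : ℂ) + r0 := by fun_prop
      have h := (hcont.tendsto 0).mono_left (nhdsWithin_le_nhds (s := Ioi 0))
      rw [Complex.ofReal_zero, zero_add] at h
      exact h
    have l4 : Tendsto (fun ε : ℝ => (1 / ((ε : ℂ) + r0)) ^ (1 - s)) (𝓝[>] 0)
        (𝓝 ((1 / r0) ^ (1 - s))) := by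
      have h1 : ContinuousAt (fun z : ℂ => (1 / z) ^ (1 - s)) r0 := by
        apply ContinuousAt.comp (f := fun z : ℂ => 1 / z) (g := fun z : ℂ => z ^ (1 - s))
        · exact continuousAt_cpow_const hslit
        · exact ContinuousAt.div continuousAt_const continuousAt_id hr0ne
      exact h1.tendsto.comp l3
    have l5 : Tendsto (fun ε : ℝ => Complex.exp (-(((ε : ℂ) + r0) * (c : ℂ))) * (c : ℂ) ^ (-s))
        (𝓝[>] 0) (𝓝 (Complex.exp (-(r0 * (c : ℂ))) * (c : ℂ) ^ (-s))) := by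
      have hcont : Continuous fun z : ℂ => Complex.exp (-(z * (c : ℂ))) * (c : ℂ) ^ (-s) := by
        fun_prop
      exact (hcont.tendsto r0).comp l3
    have l6 := l5.sub (l3.mul ((l4.mul_const (Complex.Gamma (1 - s))).sub l2))
    refine tendsto_nhds_unique l1 (l6.congr' ?_)
    filter_upwards [self_mem_nhdsWithin] with ε hε
    have hre : 0 < ((ε : ℂ) + r0).re := by
      rw [Complex.add_re, hr0re, Complex.ofReal_re, add_zero]; exact hε
    exact (reg t hc hre).symm
  -- the bounds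
  have hmain : s / (2 * Real.pi * I * m) * KK m c t =
      -(1 / r0) * (Complex.exp (-(r0 * (c : ℂ))) * (c : ℂ) ^ (-s)) +
        (1 / r0) ^ (1 - s) * Complex.Gamma (1 - s) - J := by
    have e1 : (2 * Real.pi * I * m : ℂ) = -r0 := by
      rw [hr0, hb]; push_cast; ring
    rw [e1, div_mul_eq_mul_div, hid]
    field_simp
    ring
  have hB1 : ‖-(1 / r0) * (Complex.exp (-(r0 * (c : ℂ))) * (c : ℂ) ^ (-s))‖ ≤
      1 / (2 * Real.pi * m * Real.sqrt c) := by
    rw [norm_mul, norm_neg, norm_mul, hs, norm_us t hc, hinv, norm_mul, Complex.norm_I, mul_one,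
      Complex.norm_real, Real.norm_eq_abs, abs_of_pos (by positivity)]
    have h1 := norm_ex hr0re.ge hc.le
    have h2 : c ^ (-(1 / 2) : ℝ) = 1 / Real.sqrt c := by
      rw [Real.rpow_neg hc.le, Real.sqrt_eq_rpow]
      exact (one_div _).symm
    rw [h2]
    have h3 : 0 < Real.sqrt c := Real.sqrt_pos.2 hc
    calc 1 / b * (‖Complex.exp (-(r0 * (c : ℂ)))‖ * (1 / Real.sqrt c))
        ≤ 1 / b * (1 * (1 / Real.sqrt c)) := by gcongr
      _ = 1 / (b * Real.sqrt c) := by field_simp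
  have hB2 : ‖(1 / r0) ^ (1 - s) * Complex.Gamma (1 - s)‖ ≤ 1 / Real.sqrt m := by
    set A := ‖(1 / r0) ^ (1 - s) * Complex.Gamma (1 - s)‖ with hA
    have hA0 : 0 ≤ A := norm_nonneg _
    have hA2 : A ^ 2 ≤ 1 / m := by
      have g1 : ‖Complex.Gamma (1 - s)‖ ^ 2 = Real.pi / Real.cosh (Real.pi * t) := by
        rw [hs, one_sub_pt, Complex.Gamma_conj, Complex.norm_conj, Gamma_sq]
      have g2 : ‖(1 / r0) ^ (1 - s)‖ ^ 2 = 1 / b * Real.exp (Real.pi * t) := by
        rw [Complex.norm_cpow_of_ne_zero (one_div_ne_zero hr0ne), hinv, norm_mul, Complex.norm_I,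
          mul_one, Complex.norm_real, Real.norm_eq_abs, abs_of_pos (by positivity),
          Complex.arg_real_mul _ (by positivity), Complex.arg_I, Complex.sub_re, Complex.sub_im,
          Complex.one_re, Complex.one_im, hs, s_re, s_im, div_pow, ← Real.rpow_natCast,
          ← Real.rpow_mul (by positivity), ← Real.exp_nat_mul]
        have e1 : ((1 : ℝ) - 1 / 2) * ((2 : ℕ) : ℝ) = 1 := by norm_num
        have e2 : ((2 : ℕ) : ℝ) * (Real.pi / 2 * (0 - t)) = -(Real.pi * t) := by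
          push_cast; ring
        rw [e1, e2, Real.rpow_one, Real.exp_neg, div_inv_eq_mul]
      rw [hA, norm_mul, mul_pow, g1, g2]
      have g3 : Real.exp (Real.pi * t) ≤ 2 * Real.cosh (Real.pi * t) := by
        rw [Real.cosh_eq]
        have := Real.exp_pos (-(Real.pi * t))
        linarith
      have g4 : 0 < Real.cosh (Real.pi * t) := Real.cosh_pos _
      calc 1 / b * Real.exp (Real.pi * t) * (Real.pi / Real.cosh (Real.pi * t))
          ≤ 1 / b * (2 * Real.cosh (Real.pi * t)) * (Real.pi / Real.cosh (Real.pi * t)) := by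
            gcongr
        _ = 1 / m := by
            rw [hb]
            field_simp
    calc A = Real.sqrt (A ^ 2) := (Real.sqrt_sq hA0).symm
      _ ≤ Real.sqrt (1 / m) := Real.sqrt_le_sqrt hA2
      _ = 1 / Real.sqrt m := by rw [Real.sqrt_div zero_le_one, Real.sqrt_one]
  have hB3 : ‖J‖ ≤ 2 * Real.sqrt c / (t - b * c) := near t c b hc hb0 hmt
  rw [hmain]
  calc ‖-(1 / r0) * (Complex.exp (-(r0 * (c : ℂ))) * (c : ℂ) ^ (-s)) +
        (1 / r0) ^ (1 - s) * Complex.Gamma (1 - s) - J‖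
      ≤ ‖-(1 / r0) * (Complex.exp (-(r0 * (c : ℂ))) * (c : ℂ) ^ (-s)) +
        (1 / r0) ^ (1 - s) * Complex.Gamma (1 - s)‖ + ‖J‖ := norm_sub_le _ _
    _ ≤ ‖-(1 / r0) * (Complex.exp (-(r0 * (c : ℂ))) * (c : ℂ) ^ (-s))‖ +
        ‖(1 / r0) ^ (1 - s) * Complex.Gamma (1 - s)‖ + ‖J‖ := by
          gcongr; exact norm_add_le _ _
    _ ≤ 1 / (2 * Real.pi * m * Real.sqrt c) + 1 / Real.sqrt m + 2 * Real.sqrt c / (t - b * c) := by
          gcongr
    _ = _ := by ring

end Pool.Agent.TH158.FM
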